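import Pool.Agent.TH612.CF.Mn

set_option autoImplicit false

/-!
Averages over shifts of the shifted moments of the Riemann zeta function, compared with the full
prediction of the recipe, with a power saving.
-/

namespace Pool.Agent.Results.MP_fa2474_nt.EdgeBandsShifted

open Complex MeasureTheory Filter Asymptotics
open scoped ContDiff

noncomputable section

variable {k : ℕ}

/-- The divisor function `τ_l(n)`: the sum over `d_1 d_2 ⋯ d_k = n` of `∏ j, d_j ^ l_j`. -/
def tau (l : Fin k → ℂ) (n : ℕ) : ℂ :=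
  ∑ d ∈ Nat.finMulAntidiag k n, ∏ j, (d j : ℂ) ^ (l j)

/-- The Euler factor of `F(s; a, b)` at the prime `p`. -/
def localFactor (s : ℂ) (a b : Fin k → ℝ) (p : ℕ) : ℂ :=
  (∏ j, ∏ l, (1 - (p : ℂ) ^ (-(2 * s + I * a j - I * b l)))) *
    ∑' m : ℕ, tau (fun j => I * b j) (p ^ m) * tau (fun j => -(I * a j)) (p ^ m) *
      (p : ℂ) ^ (-(2 * m * s))

/-- The arithmetic factor `F(s; a, b)`, an Euler product. -/
def arithF (s : ℂ) (a b : Fin k → ℝ) : ℂ := ∏' p : Nat.Primes, localFactor s a b p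

/-- `ζ_{(a, b)}(s)`, through `F(s; a, b)` and the product of `k ^ 2` zeta functions. -/
def zetaAB (s : ℂ) (a b : Fin k → ℝ) : ℂ :=
  arithF s a b * ∏ j, ∏ l, riemannZeta (2 * s + I * a j - I * b l)

/-- The factor `χ` of the functional equation `ζ(s) = χ(s) ζ(1 - s)`. -/
def chi (s : ℂ) : ℂ := (Real.pi : ℂ) ^ (s - 1 / 2) * Gamma ((1 - s) / 2) / Gamma (s / 2)

/-- `Z_{α, β}(t)`, where `γ = (α, β)` is indexed by `Fin k ⊕ Fin k`. -/
def Z (γ : Fin k ⊕ Fin k → ℝ) (t : ℝ) : ℂ :=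
  ∏ j : Fin k, riemannZeta (1 / 2 + I * (t + γ (Sum.inl j))) *
    riemannZeta (1 / 2 - I * (t + γ (Sum.inr j)))

/-- `G_γ(π)`, where `π(γ)` has the coordinates `γ (π i)`. -/
def G (γ : Fin k ⊕ Fin k → ℝ) (t : ℝ) (π : Equiv.Perm (Fin k ⊕ Fin k)) : ℂ :=
  (∏ j : Fin k, if (π (Sum.inl j)).isRight then chi (1 / 2 - I * t - I * γ (π (Sum.inl j))) else 1) *
  ∏ j : Fin k, if (π (Sum.inr j)).isLeft then chi (1 / 2 + I * t + I * γ (π (Sum.inr j))) else 1

/-- `Q_k(t; α, β)`: the summand depends only on the class of `π` in `S_{2k} / (S_k × S_k)`, so the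
sum over the classes is the sum over all `π`, divided by `(k!) ^ 2`. -/
def Q (γ : Fin k ⊕ Fin k → ℝ) (t : ℝ) : ℂ :=
  ((Nat.factorial k : ℂ) ^ 2)⁻¹ * ∑ π : Equiv.Perm (Fin k ⊕ Fin k),
    G γ t π * zetaAB (1 / 2) (fun j => γ (π (Sum.inl j))) (fun j => γ (π (Sum.inr j)))

/-- The shifts moved by `y` at the places in `A` and by `-y` at the other places. -/
def move (γ : Fin k ⊕ Fin k → ℝ) (A : Finset (Fin k ⊕ Fin k)) (y : ℝ) : Fin k ⊕ Fin k → ℝ :=
  fun i => if i ∈ A then γ i + y else γ i - y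

/-- The number of swaps: the number of places of `A` in the second block. -/
def swaps (A : Finset (Fin k ⊕ Fin k)) : ℕ := (A.filter fun i => i.isRight).card

/-- The Fourier transform `φ(x) = ∫ ψ(ξ) exp(i ξ x) dξ`. -/
def hat (ψ : ℝ → ℂ) (x : ℝ) : ℂ := ∫ ξ : ℝ, ψ ξ * exp (I * ξ * x)

open Pool.Agent.TH612.CF in
lemma zetaAB_eq (a b : Fin k → ℝ) :
    zetaAB (1 / 2) a b = zab (fun j => (a j : ℂ)) (fun j => (b j : ℂ)) := by
  unfold zetaAB zab arithF FH
  congr 1
  · refine tprod_congr fun p => ?_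
    unfold localFactor lh lt
    congr 1
    · refine Finset.prod_congr rfl fun j _ => Finset.prod_congr rfl fun l _ => ?_
      congr 2
      ring
    · refine tsum_congr fun m => ?_
      have hp : ((p : ℕ) : ℂ) ≠ 0 := by exact_mod_cast p.2.ne_zero
      have e : ((p : ℕ) : ℂ) ^ (-(2 * (m : ℂ) * (1 / 2))) = (((p : ℕ) : ℂ) ^ m)⁻¹ := by
        rw [← Complex.cpow_natCast, ← Complex.cpow_neg]
        congr 1; ring
      rw [e]
      rfl
  · refine Finset.prod_congr rfl fun j _ => Finset.prod_congr rfl fun l _ => ?_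
    congr 1
    ring

open Pool.Agent.TH612.CF in
lemma Q_eq (γ : Fin k ⊕ Fin k → ℝ) (t : ℝ) :
    Q γ t = ((Nat.factorial k : ℂ) ^ 2)⁻¹ * Qs t (fun i => (γ i : ℂ)) := by
  unfold Q Qs Rt
  congr 1
  refine Finset.sum_congr rfl fun π _ => ?_
  rw [zetaAB_eq]
  rfl

lemma hat_eq (ψ : ℝ → ℂ) (x L : ℝ) : hat ψ (x * L) = Pool.Agent.W182.KO.P ψ (L * x * I) := by
  unfold hat Pool.Agent.W182.KO.P
  congr 1; funext ξ
  congr 2
  push_cast; ring

/-- the sign vector of `A` -/
def sg (A : Finset (Fin k ⊕ Fin k)) : Fin k ⊕ Fin k → ℝ := fun i => if i ∈ A then 1 else -1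

lemma move_eq (γ : Fin k ⊕ Fin k → ℝ) (A : Finset (Fin k ⊕ Fin k)) (y : ℝ) :
    move γ A y = Pool.Agent.TH612.CF.gl γ (sg A) y := by
  funext i
  unfold move Pool.Agent.TH612.CF.gl sg
  split_ifs <;> ring

lemma swaps_eq (A : Finset (Fin k ⊕ Fin k)) : swaps A = Pool.Agent.TH612.CF.mv (sg A) := by
  unfold swaps Pool.Agent.TH612.CF.mv sg
  congr 1
  ext i
  simp only [Finset.mem_filter, Finset.mem_univ, true_and]
  refine and_congr_left fun _ => ?_
  split_ifs with h
  · simp [h]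
  · simp only [h, false_iff]; norm_num

open Pool.Agent.TH612.CF Pool.Agent.W182.KO in
/-- Let `A` be a set of `k` of the `2k` places, with `m` places in the second block, and let the
shifts be pairwise distinct on `A` and on the complement of `A`. For `0 ≤ η < 2` and a smooth
compactly supported `ψ` vanishing on `(η - 2m, ∞)`, the average of `∫_0^T (Z - Q_k)` over the
shifts moved by `± y`, with the weight `φ(y log T)`, is `O(T ^ (1/2 + η/4 + ε))`. -/
theorem result (k : ℕ) (γ : Fin k ⊕ Fin k → ℝ) (A : Finset (Fin k ⊕ Fin k)) (hA : A.card = k)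
    (h1 : Set.InjOn γ {i | i ∈ A}) (h2 : Set.InjOn γ {i | i ∉ A})
    (η : ℝ) (hη0 : 0 ≤ η) (hη2 : η < 2)
    (ψ : ℝ → ℂ) (hψ : ContDiff ℝ ∞ ψ) (hc : HasCompactSupport ψ)
    (hs : ∀ ξ : ℝ, η - 2 * (swaps A : ℝ) < ξ → ψ ξ = 0) :
    (∀ᵐ y : ℝ, Continuous fun t : ℝ => Z (move γ A y) t - Q (move γ A y) t) ∧
    (∀ T : ℝ, Real.exp 1 ≤ T → Integrable fun y : ℝ =>
      hat ψ (y * Real.log T) * ∫ t in (0 : ℝ)..T, (Z (move γ A y) t - Q (move γ A y) t)) ∧
    ∀ ε : ℝ, 0 < ε →
      (fun T : ℝ => ∫ y : ℝ, hat ψ (y * Real.log T) *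
        ∫ t in (0 : ℝ)..T, (Z (move γ A y) t - Q (move γ A y) t)) =O[atTop]
      fun T : ℝ => T ^ (1 / 2 + η / 4 + ε) := by
  obtain ⟨π0, hπ0⟩ := exists_good hA
  have h0 : Good (sg A) π0 := fun j => ⟨if_pos (hπ0 j).1, if_neg (hπ0 j).2⟩
  have hi : CI γ (sg A) := by
    intro p q hpq hg
    unfold sg at hpq
    by_cases hp : p ∈ A <;> by_cases hq : q ∈ A
    · exact h1 hp hq hg
    · rw [if_pos hp, if_neg hq] at hpq; norm_num at hpq
    · rw [if_neg hp, if_pos hq] at hpq; norm_num at hpq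
    · exact h2 hp hq hg
  rw [swaps_eq] at hs
  have h : TF (η - 2 * mv (sg A)) ψ := ⟨hψ, hc, hs⟩
  have hEE : ∀ T : ℝ, (fun y : ℝ => hat ψ (y * Real.log T) * ∫ t in (0 : ℝ)..T,
      (Z (move γ A y) t - Q (move γ A y) t)) = EE ψ γ (sg A) T := by
    intro T
    funext y
    unfold EE
    rw [hat_eq, move_eq]
    congr 2; funext t
    rw [Q_eq]
    rfl
  refine ⟨?_, fun T hT => ?_, fun ε hε => ?_⟩
  · filter_upwards [line_null (g := γ) h0.sgn] with y hy
    rw [move_eq]
    refine Continuous.sub ?_ ?_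
    · unfold Z
      refine continuous_finsetProd _ fun j _ => ?_
      refine Continuous.mul ?_ ?_
      · have hh := H306R2.zeta_line_continuous.comp
          (by fun_prop : Continuous fun t : ℝ => t + gl γ (sg A) y (Sum.inl j))
        refine hh.congr fun t => ?_
        simp only [Function.comp]
        congr 1
        push_cast
        ring
      · have hh := H306R2.zeta_line_continuous.comp
          (by fun_prop : Continuous fun t : ℝ => -(t + gl γ (sg A) y (Sum.inr j)))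
        refine hh.congr fun t => ?_
        simp only [Function.comp]
        congr 1
        push_cast
        ring
    · refine Continuous.congr (f := fun t : ℝ => ((Nat.factorial k : ℂ) ^ 2)⁻¹ *
        Qs t (fun i => (gl γ (sg A) y i : ℂ))) ?_ (fun t => (Q_eq _ t).symm)
      refine continuous_const.mul ?_
      unfold Qs
      refine continuous_finsetSum _ fun π _ => ?_
      rw [← continuousOn_univ, gl_LR]
      refine Rt_cont (c := 1 / 8) (T := fun x : ℝ => x) (Γ := fun _ => LR γ (sg A) (1 / 2 + y * I))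
        isOpen_univ (by norm_num) (by fun_prop) (fun i => continuousOn_const) (fun x _ i => ?_) π
        (fun x _ j l => ?_)
      · rw [LR_im_abs h0.sgn]
        simp
      · exact LR_inj hi hy (inl_ne_inr π j l)
  · rw [hEE]
    exact EE_int h0 hi h hT
  · simp only [hEE]
    exact main_O h0 hi hη0 hη2 h hε

end

end Pool.Agent.Results.MP_fa2474_nt.EdgeBandsShifted
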