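import Pool.Agent.TH612.MU.U12

set_option autoImplicit false

/-!
Averages over all the shifts of the shifted moments of the Riemann zeta function, compared with the
full prediction of the recipe: test functions of all the shifts whose Fourier transform has its
support in an explicit region of frequencies.
-/

namespace Pool.Agent.Results.MP_fa2474_nt.FrequencyRegion

open Complex MeasureTheory Filter
open scoped ContDiff

noncomputable section

variable {k : ℕ}

/-- The divisor function `τ_l(n)`: the sum over `d_1 d_2 ⋯ d_k = n` of `∏ j, d_j ^ l_j`. -/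
def tau (l : Fin k → ℂ) (n : ℕ) : ℂ :=
  ∑ d ∈ Nat.finMulAntidiag k n, ∏ j, (d j : ℂ) ^ (l j)

/-- The Euler factor of `F(s; a, b)` at the prime `p`. -/
def localFactor (s : ℂ) (a b : Fin k → ℝ) (p : ℕ) : ℂ :=
  (∏ j, ∏ l, (1 - (p : ℂ) ^ (-(2 * s + I * a j - I * b l)))) *
    ∑' m : ℕ, tau (fun j => I * b j) (p ^ m) * tau (fun j => -(I * a j)) (p ^ m) *
      (p : ℂ) ^ (-(2 * m * s))

/-- The arithmetic factor `F(s; a, b)`, an Euler product. -/
def arithF (s : ℂ) (a b : Fin k → ℝ) : ℂ := ∏' p : Nat.Primes, localFactor s a b p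

/-- `ζ_{(a, b)}(s)`, through `F(s; a, b)` and the product of `k ^ 2` zeta functions. -/
def zetaAB (s : ℂ) (a b : Fin k → ℝ) : ℂ :=
  arithF s a b * ∏ j, ∏ l, riemannZeta (2 * s + I * a j - I * b l)

/-- The factor `χ` of the functional equation `ζ(s) = χ(s) ζ(1 - s)`. -/
def chi (s : ℂ) : ℂ := (Real.pi : ℂ) ^ (s - 1 / 2) * Gamma ((1 - s) / 2) / Gamma (s / 2)

/-- `Z_{α, β}(t)`, where `γ = (α, β)` is indexed by `Fin k ⊕ Fin k`. -/
def Z (γ : Fin k ⊕ Fin k → ℝ) (t : ℝ) : ℂ :=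
  ∏ j : Fin k, riemannZeta (1 / 2 + I * (t + γ (Sum.inl j))) *
    riemannZeta (1 / 2 - I * (t + γ (Sum.inr j)))

/-- `G_γ(π)`, where `π(γ)` has the coordinates `γ (π i)`. -/
def G (γ : Fin k ⊕ Fin k → ℝ) (t : ℝ) (π : Equiv.Perm (Fin k ⊕ Fin k)) : ℂ :=
  (∏ j : Fin k, if (π (Sum.inl j)).isRight then chi (1 / 2 - I * t - I * γ (π (Sum.inl j))) else 1) *
  ∏ j : Fin k, if (π (Sum.inr j)).isLeft then chi (1 / 2 + I * t + I * γ (π (Sum.inr j))) else 1

/-- `Q_k(t; α, β)`: the summand depends only on the class of `π` in `S_{2k} / (S_k × S_k)`, so the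
sum over the classes is the sum over all `π`, divided by `(k!) ^ 2`. -/
def Q (γ : Fin k ⊕ Fin k → ℝ) (t : ℝ) : ℂ :=
  ((Nat.factorial k : ℂ) ^ 2)⁻¹ * ∑ π : Equiv.Perm (Fin k ⊕ Fin k),
    G γ t π * zetaAB (1 / 2) (fun j => γ (π (Sum.inl j))) (fun j => γ (π (Sum.inr j)))

/-- The Fourier transform `Φ̂(x) = ∫ Φ(ξ) exp(i ξ · x) dξ`. -/
def hat (Φ : (Fin k ⊕ Fin k → ℝ) → ℂ) (x : Fin k ⊕ Fin k → ℝ) : ℂ :=
  ∫ ξ : Fin k ⊕ Fin k → ℝ, Φ ξ * exp (I * (∑ i, ξ i * x i : ℝ))

/-- `0` on the first block and `1` on the second block. -/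
def r (i : Fin k ⊕ Fin k) : ℝ := if i.isRight then 1 else 0

open Pool.Agent.TH612.CF in
lemma zetaAB_eq (a b : Fin k → ℝ) :
    zetaAB (1 / 2) a b = zab (fun j => (a j : ℂ)) (fun j => (b j : ℂ)) := by
  unfold zetaAB zab arithF FH
  congr 1
  · refine tprod_congr fun p => ?_
    unfold localFactor lh lt
    congr 1
    · refine Finset.prod_congr rfl fun j _ => Finset.prod_congr rfl fun l _ => ?_
      congr 2
      ring
    · refine tsum_congr fun m => ?_
      have hp : ((p : ℕ) : ℂ) ≠ 0 := by exact_mod_cast p.2.ne_zero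
      have e : ((p : ℕ) : ℂ) ^ (-(2 * (m : ℂ) * (1 / 2))) = (((p : ℕ) : ℂ) ^ m)⁻¹ := by
        rw [← Complex.cpow_natCast, ← Complex.cpow_neg]
        congr 1; ring
      rw [e]
      rfl
  · refine Finset.prod_congr rfl fun j _ => Finset.prod_congr rfl fun l _ => ?_
    congr 1
    ring

open Pool.Agent.TH612.CF in
lemma Q_eq (γ : Fin k ⊕ Fin k → ℝ) (t : ℝ) :
    Q γ t = ((Nat.factorial k : ℂ) ^ 2)⁻¹ * Qs t (fun i => (γ i : ℂ)) := by
  unfold Q Qs Rt
  congr 1
  refine Finset.sum_congr rfl fun π _ => ?_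
  rw [zetaAB_eq]
  rfl

open Pool.Agent.TH612.CF Pool.Agent.TH612.MD in
lemma cont_of (γ : Fin k ⊕ Fin k → ℝ) (h : ∀ p q, p ≠ q → γ p ≠ γ q) :
    Continuous fun t : ℝ => Z γ t - Q γ t := by
  refine Continuous.sub ?_ ?_
  · unfold Z
    refine continuous_finsetProd _ fun j _ => ?_
    refine Continuous.mul ?_ ?_
    · have hh := H306R2.zeta_line_continuous.comp
        (by fun_prop : Continuous fun t : ℝ => t + γ (Sum.inl j))
      refine hh.congr fun t => ?_
      simp only [Function.comp]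
      congr 1
      push_cast
      ring
    · have hh := H306R2.zeta_line_continuous.comp
        (by fun_prop : Continuous fun t : ℝ => -(t + γ (Sum.inr j)))
      refine hh.congr fun t => ?_
      simp only [Function.comp]
      congr 1
      push_cast
      ring
  · refine Continuous.congr (f := fun t : ℝ => ((Nat.factorial k : ℂ) ^ 2)⁻¹ *
      Qs t (fun i => (γ i : ℂ))) ?_ (fun t => (Q_eq _ t).symm)
    refine continuous_const.mul ?_
    unfold Qs
    refine continuous_finsetSum _ fun π _ => ?_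
    rw [← continuousOn_univ]
    refine Rt_cont (c := 1 / 8) (T := fun x : ℝ => x) (Γ := fun _ i => (γ i : ℂ))
      isOpen_univ (by norm_num) (by fun_prop) (fun i => continuousOn_const) (fun x _ i => ?_) π
      (fun x _ j l => ?_)
    · rw [Complex.ofReal_im, abs_zero]; norm_num
    · have := h _ _ (inl_ne_inr π j l)
      exact_mod_cast this

open Pool.Agent.TH612.CF Pool.Agent.TH612.MD Pool.Agent.TH612.MU in
/-- Let `a < 1` and let `Φ` be smooth with compact support, such that for every `x` in the support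
there is a set `A` of `k` places with `∑_{i ∈ A} max(p_i, 0) ≤ a` or
`∑_{i ∉ A} max(1 - p_i, 0) ≤ a`, where `p_i = x_i + r_i`. Then the average of
`∫ w(t / T) (Z - Q_k) dt` over all the shifts `γ`, with the weight `Φ̂((γ - g) log T)`, is at most
`C (1 + |g|) ^ B T ^ (1 - (1 - a) / 4 + ε)`, with `C`, `B` independent of the centre `g`. -/
theorem result (k : ℕ) (a : ℝ) (ha : a < 1)
    (Φ : (Fin k ⊕ Fin k → ℝ) → ℂ) (hΦ : ContDiff ℝ ∞ Φ) (hc : HasCompactSupport Φ)
    (hs : ∀ x ∈ tsupport Φ, ∃ A : Finset (Fin k ⊕ Fin k), A.card = k ∧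
      (∑ i ∈ A, max (x i + r i) 0 ≤ a ∨ ∑ i ∈ Aᶜ, max (1 - (x i + r i)) 0 ≤ a))
    (w : ℝ → ℂ) (hw : ContDiff ℝ ∞ w) (hwc : HasCompactSupport w) (hw0 : tsupport w ⊆ Set.Ioi 0) :
    (∀ᵐ γ : Fin k ⊕ Fin k → ℝ, Continuous fun t : ℝ => Z γ t - Q γ t) ∧
    (∀ (g : Fin k ⊕ Fin k → ℝ) (T : ℝ), Real.exp 1 ≤ T → Integrable fun γ : Fin k ⊕ Fin k → ℝ =>
      hat Φ (fun i => (γ i - g i) * Real.log T) *
        ∫ t in Set.Ioi (0 : ℝ), w (t / T) * (Z γ t - Q γ t)) ∧
    ∀ ε : ℝ, 0 < ε → ∃ (C : ℝ) (B : ℕ) (T₀ : ℝ), ∀ (g : Fin k ⊕ Fin k → ℝ) (T : ℝ), T₀ ≤ T →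
      ‖∫ γ : Fin k ⊕ Fin k → ℝ, hat Φ (fun i => (γ i - g i) * Real.log T) *
        ∫ t in Set.Ioi (0 : ℝ), w (t / T) * (Z γ t - Q γ t)‖ ≤
      C * (1 + ∑ i, |g i|) ^ B * T ^ (1 - (1 - a) / 4 + ε) := by
  obtain ⟨c1, c2, hc1, hc12, hWT⟩ := exists_WT hw hwc hw0
  have hs' : ∀ x ∈ tsupport Φ, ∃ (A : Finset (Fin k ⊕ Fin k)) (b : Bool), A.card = k ∧
      sd A b (pp A x) ≤ a := by
    intro x hx
    obtain ⟨A, hA, h⟩ := hs x hx
    rcases h with h | h
    · refine ⟨A, true, hA, le_trans (le_of_eq ?_) h⟩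
      unfold sd
      rw [← Finset.sum_filter]
      have e : (Finset.univ.filter fun i : Fin k ⊕ Fin k => decide (i ∈ A) = true) = A := by
        ext i; simp
      rw [e]
      refine Finset.sum_congr rfl fun i hi => ?_
      unfold pp
      rw [if_pos hi]
      rfl
    · refine ⟨A, false, hA, le_trans (le_of_eq ?_) h⟩
      unfold sd
      rw [← Finset.sum_filter]
      have e : (Finset.univ.filter fun i : Fin k ⊕ Fin k => decide (i ∈ A) = false) = Aᶜ := by
        ext i; simp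
      rw [e]
      refine Finset.sum_congr rfl fun i hi => ?_
      unfold pp
      rw [if_neg (Finset.mem_compl.1 hi)]
      rfl
  have hWF : ∀ (g : Fin k ⊕ Fin k → ℝ) (T : ℝ), (fun γ : Fin k ⊕ Fin k → ℝ =>
      hat Φ (fun i => (γ i - g i) * Real.log T) *
        ∫ t in Set.Ioi (0 : ℝ), w (t / T) * (Z γ t - Q γ t)) = WF w Φ g T := by
    intro g T
    funext γ
    unfold WF DT dt
    simp only [Q_eq]
    rfl
  refine ⟨?_, fun g T hT => ?_, fun ε hε => ?_⟩
  · filter_upwards [ae_dist] with γ hγ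
    exact cont_of γ hγ
  · rw [hWF]
    exact (final_aux ha hΦ hc hs' hWT hc1 hc12 (E := 1 - (1 - a) / 4 + 1) (by linarith)).1 g T hT
  · obtain ⟨C, B, T0, hC, hb⟩ :=
      (final_aux ha hΦ hc hs' hWT hc1 hc12 (E := 1 - (1 - a) / 4 + ε) (by linarith)).2
    refine ⟨C, B, T0, fun g T hT => ?_⟩
    rw [hWF]
    exact hb g T hT

end

end Pool.Agent.Results.MP_fa2474_nt.FrequencyRegion
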