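import Pool.Agent.TH612.GS.AllF

set_option autoImplicit false

/-!
The shifted moments of the Riemann zeta function of order `2k`, `k ≤ 4`, compared with the full
prediction of the recipe: `α` is an arbitrary fixed vector with distinct coordinates, and `β` is any
vector in the cube `[0, T] ^ k` outside a set whose measure is smaller than that of the cube by a
power of `T`.
-/

namespace Pool.Agent.Results.MP_fa2474_nt.HalfFixedShifts

open Complex MeasureTheory Filter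

noncomputable section

variable {k : ℕ}

/-- The divisor function `τ_l(n)`: the sum over `d_1 d_2 ⋯ d_k = n` of `∏ j, d_j ^ l_j`. -/
def tau (l : Fin k → ℂ) (n : ℕ) : ℂ :=
  ∑ d ∈ Nat.finMulAntidiag k n, ∏ j, (d j : ℂ) ^ (l j)

/-- The Euler factor of `F(s; a, b)` at the prime `p`. -/
def localFactor (s : ℂ) (a b : Fin k → ℝ) (p : ℕ) : ℂ :=
  (∏ j, ∏ l, (1 - (p : ℂ) ^ (-(2 * s + I * a j - I * b l)))) *
    ∑' m : ℕ, tau (fun j => I * b j) (p ^ m) * tau (fun j => -(I * a j)) (p ^ m) *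
      (p : ℂ) ^ (-(2 * m * s))

/-- The arithmetic factor `F(s; a, b)`, an Euler product. -/
def arithF (s : ℂ) (a b : Fin k → ℝ) : ℂ := ∏' p : Nat.Primes, localFactor s a b p

/-- `ζ_{(a, b)}(s)`, through `F(s; a, b)` and the product of `k ^ 2` zeta functions. -/
def zetaAB (s : ℂ) (a b : Fin k → ℝ) : ℂ :=
  arithF s a b * ∏ j, ∏ l, riemannZeta (2 * s + I * a j - I * b l)

/-- The factor `χ` of the functional equation `ζ(s) = χ(s) ζ(1 - s)`. -/
def chi (s : ℂ) : ℂ := (Real.pi : ℂ) ^ (s - 1 / 2) * Gamma ((1 - s) / 2) / Gamma (s / 2)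

/-- `Z_{α, β}(t)`, where `γ = (α, β)` is indexed by `Fin k ⊕ Fin k`. -/
def Z (γ : Fin k ⊕ Fin k → ℝ) (t : ℝ) : ℂ :=
  ∏ j : Fin k, riemannZeta (1 / 2 + I * (t + γ (Sum.inl j))) *
    riemannZeta (1 / 2 - I * (t + γ (Sum.inr j)))

/-- `G_γ(π)`, where `π(γ)` has the coordinates `γ (π i)`. -/
def G (γ : Fin k ⊕ Fin k → ℝ) (t : ℝ) (π : Equiv.Perm (Fin k ⊕ Fin k)) : ℂ :=
  (∏ j : Fin k, if (π (Sum.inl j)).isRight then chi (1 / 2 - I * t - I * γ (π (Sum.inl j))) else 1) *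
  ∏ j : Fin k, if (π (Sum.inr j)).isLeft then chi (1 / 2 + I * t + I * γ (π (Sum.inr j))) else 1

/-- `Q_k(t; α, β)`: the summand depends only on the class of `π` in `S_{2k} / (S_k × S_k)`, so the
sum over the classes is the sum over all `π`, divided by `(k!) ^ 2`. -/
def Q (γ : Fin k ⊕ Fin k → ℝ) (t : ℝ) : ℂ :=
  ((Nat.factorial k : ℂ) ^ 2)⁻¹ * ∑ π : Equiv.Perm (Fin k ⊕ Fin k),
    G γ t π * zetaAB (1 / 2) (fun j => γ (π (Sum.inl j))) (fun j => γ (π (Sum.inr j)))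

open Pool.Agent.TH612.CF in
lemma zetaAB_eq (a b : Fin k → ℝ) :
    zetaAB (1 / 2) a b = zab (fun j => (a j : ℂ)) (fun j => (b j : ℂ)) := by
  unfold zetaAB zab arithF FH
  congr 1
  · refine tprod_congr fun p => ?_
    unfold localFactor lh lt
    congr 1
    · refine Finset.prod_congr rfl fun j _ => Finset.prod_congr rfl fun l _ => ?_
      congr 2
      ring
    · refine tsum_congr fun m => ?_
      have hp : ((p : ℕ) : ℂ) ≠ 0 := by exact_mod_cast p.2.ne_zero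
      have e : ((p : ℕ) : ℂ) ^ (-(2 * (m : ℂ) * (1 / 2))) = (((p : ℕ) : ℂ) ^ m)⁻¹ := by
        rw [← Complex.cpow_natCast, ← Complex.cpow_neg]
        congr 1; ring
      rw [e]
      rfl
  · refine Finset.prod_congr rfl fun j _ => Finset.prod_congr rfl fun l _ => ?_
    congr 1
    ring

open Pool.Agent.TH612.CF in
lemma Q_eq (γ : Fin k ⊕ Fin k → ℝ) (t : ℝ) :
    Q γ t = ((Nat.factorial k : ℂ) ^ 2)⁻¹ * Qs t (fun i => (γ i : ℂ)) := by
  unfold Q Qs Rt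
  congr 1
  refine Finset.sum_congr rfl fun π _ => ?_
  rw [zetaAB_eq]
  rfl

/-- Let `k ≤ 4`. There is `δ > 0` such that for every `α ∈ ℝ ^ k`, all large `T` and all `0 ≤ S ≤ T`
the following holds for all `β` in the cube `[0, T] ^ k` outside a set of measure at most
`T ^ (k - δ)`: `|∫_0^S Z_{α, β}(t) dt - S ζ_{(α, β)}(1 / 2)| ≤ T ^ (1 - δ)`. If moreover the coordinates
of `α` are distinct, then also `|∫_0^S (Z_{α, β}(t) - Q_k(t; α, β)) dt| ≤ T ^ (1 - δ)` outside such a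
set. -/
theorem result (k : ℕ) (hk : k ≤ 4) :
    (∀ γ : Fin k ⊕ Fin k → ℝ, (Continuous fun t : ℝ => Z γ t) ∧
      Continuous fun t : ℝ => Z γ t - Q γ t) ∧
    ∃ δ : ℝ, 0 < δ ∧ ∀ α : Fin k → ℝ, ∃ T₀ : ℝ, ∀ T : ℝ, T₀ ≤ T → ∀ S : ℝ, 0 ≤ S → S ≤ T →
      volume {β : Fin k → ℝ | (∀ l, 0 ≤ β l ∧ β l ≤ T) ∧
        T ^ (1 - δ) < ‖(∫ t in (0:ℝ)..S, Z (Sum.elim α β) t) - S * zetaAB (1 / 2) α β‖} ≤
        ENNReal.ofReal (T ^ (k - δ : ℝ)) ∧
      (Function.Injective α → volume {β : Fin k → ℝ | (∀ l, 0 ≤ β l ∧ β l ≤ T) ∧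
        T ^ (1 - δ) < ‖∫ t in (0:ℝ)..S, (Z (Sum.elim α β) t - Q (Sum.elim α β) t)‖} ≤
        ENNReal.ofReal (T ^ (k - δ : ℝ))) := by
  constructor
  · intro γ
    refine ⟨Pool.Agent.TH612.GS.Zg_cont γ, ?_⟩
    have h := (Pool.Agent.TH612.GS.Zg_cont γ).sub
      ((continuous_const (y := ((Nat.factorial k : ℂ) ^ 2)⁻¹)).mul
        (Pool.Agent.TH612.GS.Qs_cont γ))
    refine h.congr fun t => ?_
    rw [Q_eq]
    rfl
  · obtain ⟨δ, hδ, h⟩ := Pool.Agent.TH612.GS.all_mainA k hk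
    refine ⟨δ, hδ, fun α => ?_⟩
    obtain ⟨T₀, hT₀⟩ := h α
    refine ⟨T₀, fun T hT S hS0 hST => ?_⟩
    obtain ⟨h1, h2⟩ := hT₀ T hT S hS0 hST
    refine ⟨?_, fun hα => ?_⟩
    · have e : {β : Fin k → ℝ | (∀ l, 0 ≤ β l ∧ β l ≤ T) ∧
          T ^ (1 - δ) < ‖(∫ t in (0:ℝ)..S, Z (Sum.elim α β) t) - S * zetaAB (1 / 2) α β‖} =
          Pool.Agent.TH612.GS.BadD α T S (T ^ (1 - δ)) := by
        ext β
        unfold Pool.Agent.TH612.GS.BadD Pool.Agent.TH612.GS.gab Pool.Agent.TH612.GS.zr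
        simp only [Set.mem_ofPred_eq, zetaAB_eq, Sum.elim_inl, Sum.elim_inr]
        rfl
      rw [e, Pool.Agent.TH612.GS.vol_cube (T := T) fun β hβ => hβ.1]
      exact h1
    · have e : {β : Fin k → ℝ | (∀ l, 0 ≤ β l ∧ β l ≤ T) ∧
          T ^ (1 - δ) < ‖∫ t in (0:ℝ)..S, (Z (Sum.elim α β) t - Q (Sum.elim α β) t)‖} =
          Pool.Agent.TH612.GS.BadA α T S (T ^ (1 - δ)) := by
        ext β
        unfold Pool.Agent.TH612.GS.BadA Pool.Agent.TH612.GS.DD Pool.Agent.TH612.GS.gab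
        simp only [Set.mem_ofPred_eq, Q_eq]
        rfl
      rw [e, Pool.Agent.TH612.GS.vol_cube (T := T) fun β hβ => hβ.1]
      exact h2 hα

end

end Pool.Agent.Results.MP_fa2474_nt.HalfFixedShifts
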